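import Pool.Agent.Helper81_NJ.Tools

set_option autoImplicit false

/-!
# Squad NJ, module ST0
-/

namespace Pool.Agent.NJ.H50

open Pool.Agent.NJ.H81

/-- **ST0** -/
theorem st0 : ST0Stmt := by
  intro e₂ e₃ d₁ d₂ r s w A B h p _ hp2 h2 h3 h23 hd1 hd2
  have hp : p.Prime := Fact.out
  have hpp := prime_int hp
  have hp0 : (p : ℤ) ≠ 0 := hpp.ne_zero
  obtain ⟨c, hc⟩ := exists_c2 h
  obtain ⟨b, hb⟩ := exists_c1 h
  obtain ⟨f, rfl⟩ := h2
  obtain ⟨g, rfl⟩ := h3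
  by_cases hr : (p : ℤ) ∣ r
  · exfalso
    have hs := not_dvd_s h hp hr
    have hA : (p : ℤ) ∣ A := by
      have h4 : (p : ℤ) ∣ d₁ * A ^ 2 := h.h1 ▸ hr
      rcases hpp.dvd_or_dvd h4 with h5 | h5
      · exact absurd h5 hd1
      · exact hpp.dvd_of_dvd_pow h5
    obtain ⟨A', hA'⟩ := hA
    obtain ⟨r', hr'⟩ := hr
    have hB : (p : ℤ) ∣ B := by
      have h4 : (p : ℤ) ∣ d₂ * B ^ 2 := ⟨r' - f * s ^ 2, by rw [← h.h2, hr']; ring⟩
      rcases hpp.dvd_or_dvd h4 with h5 | h5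
      · exact absurd h5 hd2
      · exact hpp.dvd_of_dvd_pow h5
    obtain ⟨B', hB'⟩ := hB
    have hf : (p : ℤ) ∣ f := by
      have h4 : (p : ℤ) * (f * s ^ 2) = p * (p * (d₁ * A' ^ 2 - d₂ * B' ^ 2)) := by
        have e1 := h.h1
        have e2 := h.h2
        rw [hA'] at e1
        rw [hB'] at e2
        linear_combination e1 - e2
      have h5 : f * s ^ 2 = p * (d₁ * A' ^ 2 - d₂ * B' ^ 2) := mul_left_cancel₀ hp0 h4
      rcases hpp.dvd_or_dvd ⟨_, h5⟩ with h6 | h6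
      · exact h6
      · exact absurd (hpp.dvd_of_dvd_pow h6) hs
    have hg : ¬ (p : ℤ) ∣ g := by
      rintro ⟨v, hv⟩
      obtain ⟨u, hu⟩ := hf
      rcases h23 with h4 | h4
      · exact h4 ⟨u, by rw [hu]; ring⟩
      · exact h4 ⟨v, by rw [hv]; ring⟩
    have hA0 := A_ne h
    have e3 : c ^ 2 = A ^ 2 * (d₁ * d₂ * (r - p * g * s ^ 2)) := by
      rw [hc]
      have e1 := h.h1
      linear_combination (d₂ * (r - p * g * s ^ 2)) * e1
    obtain ⟨c', rfl⟩ : A ∣ c := (Int.pow_dvd_pow_iff two_ne_zero).1 ⟨_, e3⟩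
    have e4 : c' ^ 2 = d₁ * d₂ * (r - p * g * s ^ 2) := by
      have : A ^ 2 * c' ^ 2 = A ^ 2 * (d₁ * d₂ * (r - p * g * s ^ 2)) := by rw [← e3]; ring
      exact mul_left_cancel₀ (pow_ne_zero 2 hA0) this
    have h5 : (p : ℤ) ∣ c' := by
      apply hpp.dvd_of_dvd_pow (n := 2)
      exact ⟨d₁ * d₂ * (r' - g * s ^ 2), by rw [e4, hr']; ring⟩
    obtain ⟨k, rfl⟩ := h5
    have e5 : (p : ℤ) * k ^ 2 = d₁ * d₂ * (r' - g * s ^ 2) := by
      have : (p : ℤ) * (p * k ^ 2) = p * (d₁ * d₂ * (r' - g * s ^ 2)) := by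
        rw [hr'] at e4
        linear_combination e4
      exact mul_left_cancel₀ hp0 this
    have h6 : (p : ℤ) ∣ d₁ * d₂ * (r' - g * s ^ 2) := ⟨_, e5.symm⟩
    rcases hpp.dvd_or_dvd h6 with h7 | h7
    · rcases hpp.dvd_or_dvd h7 with h8 | h8
      · exact hd1 h8
      · exact hd2 h8
    · have h8 : (p : ℤ) ∣ r' := by
        have e1 := h.h1
        rw [hA', hr'] at e1
        have : (p : ℤ) * r' = p * (p * (d₁ * A' ^ 2)) := by linear_combination e1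
        exact ⟨_, mul_left_cancel₀ hp0 this⟩
      have h9 : (p : ℤ) ∣ g * s ^ 2 := (dvd_sub_right h8).1 h7
      rcases hpp.dvd_or_dvd h9 with h10 | h10
      · exact hg h10
      · exact hs (hpp.dvd_of_dvd_pow h10)
  · refine ⟨leg_one (x := b) (y := r) hd1 hr ?_, leg_one (x := c) (y := r) hd2 hr ?_⟩
    · rw [hb]
      exact ⟨d₁ * (r * (f + g) * s ^ 2 - p * f * g * s ^ 4), by ring⟩
    · rw [hc]
      exact ⟨d₂ * r * (g * s ^ 2), by ring⟩

end Pool.Agent.NJ.H50
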